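/-
If `K` is a compact subgroup of a topological group `G` and the quotient space `G / K` is a Baire
space, then `G` is a Baire space.
-/
import Mathlib

set_option autoImplicit false

open Set Topology

namespace Pool.Agent.Results.MP_0c5bac_gt.CompactExtension

universe u

section Families

variable {X Y : Type u} (π : X → Y)

/-- a maximal subfamily with pairwise disjoint images -/
theorem exists_max (P : Set (Set X)) : ∃ 𝒱 ⊆ P, (∀ V ∈ 𝒱, ∀ V' ∈ 𝒱, V ≠ V' →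
    Disjoint (π '' V) (π '' V')) ∧ ∀ V ∈ P, V.Nonempty → ∃ V' ∈ 𝒱, (π '' V ∩ π '' V').Nonempty := by
  obtain ⟨𝒱, h1⟩ := zorn_subset {𝒱 : Set (Set X) | 𝒱 ⊆ P ∧ ∀ V ∈ 𝒱, ∀ V' ∈ 𝒱, V ≠ V' →
      Disjoint (π '' V) (π '' V')} (by
    intro c hc hchain
    refine ⟨⋃₀ c, ⟨sUnion_subset fun 𝒱 h => (hc h).1, ?_⟩, fun s hs => subset_sUnion_of_mem hs⟩
    rintro V ⟨𝒱, h𝒱, hV⟩ V' ⟨𝒱', h𝒱', hV'⟩ hne
    rcases hchain.total h𝒱 h𝒱' with h | h
    · exact (hc h𝒱').2 V (h hV) V' hV' hne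
    · exact (hc h𝒱).2 V hV V' (h hV') hne)
  refine ⟨𝒱, h1.prop.1, h1.prop.2, fun V hV hne => ?_⟩
  by_contra hcon
  push Not at hcon
  have hd : ∀ V' ∈ 𝒱, Disjoint (π '' V) (π '' V') := fun V' hV' =>
    Set.disjoint_iff_inter_eq_empty.2 (hcon V' hV')
  have h2 : insert V 𝒱 ∈ {𝒱 : Set (Set X) | 𝒱 ⊆ P ∧ ∀ V ∈ 𝒱, ∀ V' ∈ 𝒱, V ≠ V' →
      Disjoint (π '' V) (π '' V')} := by
    refine ⟨insert_subset_iff.2 ⟨hV, h1.prop.1⟩, ?_⟩
    rintro A (rfl | hA) B (rfl | hB) hAB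
    · exact absurd rfl hAB
    · exact hd B hB
    · exact (hd A hA).symm
    · exact h1.prop.2 A hA B hB hAB
  have h3 : V ∈ 𝒱 := h1.le_of_ge h2 (subset_insert _ _) (mem_insert _ _)
  obtain ⟨x, hx⟩ := hne
  exact Set.disjoint_left.1 (hd V h3) (mem_image_of_mem π hx) (mem_image_of_mem π hx)

end Families

/-- the topological statement: an open continuous surjection with compact fibres from a regular
space onto a Baire space has a Baire domain -/
theorem baire_of_fibres {X Y : Type u} [TopologicalSpace X] [TopologicalSpace Y] [RegularSpace X]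
    [BaireSpace Y] (π : X → Y) (hc : Continuous π) (ho : IsOpenMap π)
    (hK : ∀ y, IsCompact (π ⁻¹' {y})) : BaireSpace X := by
  refine ⟨fun D hD hDd => ?_⟩
  rw [dense_iff_inter_open]
  intro O hO hOne
  -- the choice of the families
  have hchoice : ∀ (n : ℕ) (W : Set X), ∃ 𝒱 : Set (Set X),
      (∀ V ∈ 𝒱, IsOpen V ∧ V.Nonempty ∧ closure V ⊆ W ∩ D n) ∧
      (∀ V ∈ 𝒱, ∀ V' ∈ 𝒱, V ≠ V' → Disjoint (π '' V) (π '' V')) ∧
      (IsOpen W → ∀ Q : Set Y, IsOpen Q → (Q ∩ π '' W).Nonempty → ∃ V ∈ 𝒱,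
        (Q ∩ π '' V).Nonempty) := by
    intro n W
    obtain ⟨𝒱, h1, h2, h3⟩ := exists_max π {V : Set X | IsOpen V ∧ V.Nonempty ∧
      closure V ⊆ W ∩ D n}
    refine ⟨𝒱, fun V hV => h1 hV, h2, fun hW Q hQ hne => ?_⟩
    obtain ⟨_, hyQ, w, hw, rfl⟩ := hne
    have h4 : IsOpen (W ∩ π ⁻¹' Q) := hW.inter (hQ.preimage hc)
    obtain ⟨x, ⟨hxW, hxQ⟩, hxD⟩ := (hDd n).inter_open_nonempty _ h4 ⟨w, hw, hyQ⟩
    have h5 : (W ∩ D n) ∩ π ⁻¹' Q ∈ 𝓝 x :=
      ((hW.inter (hD n)).inter (hQ.preimage hc)).mem_nhds ⟨⟨hxW, hxD⟩, hxQ⟩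
    obtain ⟨C, hC, hCc, hCsub⟩ := exists_mem_nhds_isClosed_subset h5
    have h6 : closure (interior C) ⊆ C := closure_minimal interior_subset hCc
    obtain ⟨V', hV', y, ⟨v, hv, hvy⟩, hy'⟩ := h3 (interior C)
      ⟨isOpen_interior, ⟨x, mem_interior_iff_mem_nhds.2 hC⟩, fun z hz => (hCsub (h6 hz)).1⟩
      ⟨x, mem_interior_iff_mem_nhds.2 hC⟩
    refine ⟨V', hV', y, ?_, hy'⟩
    rw [← hvy]
    exact (hCsub (interior_subset hv)).2
  choose 𝒱 h𝒱1 h𝒱2 h𝒱3 using hchoice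
  let 𝒲 : ℕ → Set (Set X) := fun n => Nat.rec {O} (fun n 𝒮 => ⋃ W ∈ 𝒮, 𝒱 n W) n
  have h𝒲 : ∀ n, 𝒲 (n + 1) = ⋃ W ∈ 𝒲 n, 𝒱 n W := fun n => rfl
  have hopen : ∀ n, ∀ W ∈ 𝒲 n, IsOpen W := by
    intro n
    cases n with
    | zero =>
      intro W hW
      have : W = O := hW
      rw [this]
      exact hO
    | succ n =>
      intro V hV
      rw [h𝒲] at hV
      obtain ⟨W, -, hV⟩ := mem_iUnion₂.1 hV
      exact (h𝒱1 n W V hV).1
  have hdisj : ∀ n, ∀ W ∈ 𝒲 n, ∀ W' ∈ 𝒲 n, W ≠ W' → Disjoint (π '' W) (π '' W') := by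
    intro n
    induction n with
    | zero =>
      intro W hW W' hW' hne
      have h1 : W = O := hW
      have h2 : W' = O := hW'
      exact absurd (h1.trans h2.symm) hne
    | succ n ih =>
      intro V hV V' hV' hne
      rw [h𝒲] at hV hV'
      obtain ⟨W, hW, hV⟩ := mem_iUnion₂.1 hV
      obtain ⟨W', hW', hV'⟩ := mem_iUnion₂.1 hV'
      by_cases h : W = W'
      · subst h
        exact h𝒱2 n W V hV V' hV' hne
      · exact (ih W hW W' hW' h).mono
          (image_mono (subset_closure.trans ((h𝒱1 n W V hV).2.2.trans inter_subset_left)))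
          (image_mono (subset_closure.trans ((h𝒱1 n W' V' hV').2.2.trans inter_subset_left)))
  let U : ℕ → Set Y := fun n => ⋃ W ∈ 𝒲 n, π '' W
  have hUo : ∀ n, IsOpen (U n) := fun n =>
    isOpen_biUnion fun W hW => ho W (hopen n W hW)
  have hUd : ∀ n, ∀ Q : Set Y, IsOpen Q → (Q ∩ π '' O).Nonempty → (Q ∩ U n).Nonempty := by
    intro n
    induction n with
    | zero =>
      rintro Q - ⟨y, hyQ, hy⟩
      exact ⟨y, hyQ, mem_iUnion₂.2 ⟨O, rfl, hy⟩⟩
    | succ n ih =>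
      intro Q hQ hne
      obtain ⟨y, hyQ, hy⟩ := ih Q hQ hne
      obtain ⟨W, hW, hy⟩ := mem_iUnion₂.1 hy
      obtain ⟨V, hV, z, hzQ, hz⟩ := h𝒱3 n W (hopen n W hW) Q hQ ⟨y, hyQ, hy⟩
      refine ⟨z, hzQ, mem_iUnion₂.2 ⟨V, ?_, hz⟩⟩
      rw [h𝒲]
      exact mem_iUnion₂.2 ⟨W, hW, hV⟩
  -- a point of all the sets `U n`
  have hE : Dense (⋂ n, (U n ∪ (closure (π '' O))ᶜ)) := by
    refine dense_iInter_of_isOpen_nat (fun n => (hUo n).union isClosed_closure.isOpen_compl) ?_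
    intro n
    rw [dense_iff_inter_open]
    intro Q hQ hne
    by_cases h : (Q ∩ π '' O).Nonempty
    · exact (hUd n Q hQ h).mono (inter_subset_inter_right _ subset_union_left)
    · obtain ⟨q, hq⟩ := hne
      refine ⟨q, hq, Or.inr fun hqc => h ?_⟩
      exact mem_closure_iff.1 hqc Q hQ hq
  obtain ⟨y, hyO, hyE⟩ := hE.inter_open_nonempty _ (ho O hO) (hOne.image π)
  have hyU : ∀ n, y ∈ U n := fun n =>
    (mem_iInter.1 hyE n).resolve_right fun h => h (subset_closure hyO)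
  have hW : ∀ n, ∃ W ∈ 𝒲 n, y ∈ π '' W := fun n => by
    obtain ⟨W, hW, hy⟩ := mem_iUnion₂.1 (hyU n)
    exact ⟨W, hW, hy⟩
  choose W hW hyW using hW
  have hnest : ∀ n, closure (W (n + 1)) ⊆ W n ∩ D n := by
    intro n
    have h1 := hW (n + 1)
    rw [h𝒲] at h1
    obtain ⟨W', hW', hV⟩ := mem_iUnion₂.1 h1
    have h2 := (h𝒱1 n W' _ hV).2.2
    have h3 : y ∈ π '' W' := image_mono (subset_closure.trans (h2.trans inter_subset_left))
      (hyW (n + 1))
    have h4 : W' = W n := by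
      by_contra hne
      exact Set.disjoint_left.1 (hdisj n W' hW' (W n) (hW n) hne) h3 (hyW n)
    rw [← h4]
    exact h2
  have hanti : ∀ m n, m ≤ n → W n ⊆ W m := by
    intro m n hmn
    induction n, hmn using Nat.le_induction with
    | base => exact Subset.rfl
    | succ n _ ih => exact (subset_closure.trans ((hnest n).trans inter_subset_left)).trans ih
  obtain ⟨x, hxy, hx⟩ := (hK y).inter_iInter_nonempty (fun n => closure (W n))
    (fun n => isClosed_closure) (by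
      intro s
      obtain ⟨N, hN⟩ : ∃ N, ∀ i ∈ s, i ≤ N := ⟨s.sup id, fun i hi => Finset.le_sup (f := id) hi⟩
      obtain ⟨x, hx, hxy⟩ := hyW N
      exact ⟨x, hxy, mem_iInter₂.2 fun i hi => subset_closure (hanti i N (hN i hi) hx)⟩)
  rw [mem_iInter] at hx
  refine ⟨x, ?_, mem_iInter.2 fun n => (hnest n (hx (n + 1))).2⟩
  have h0 : W 0 = O := hW 0
  have h1 := (hnest 0 (hx 1)).1
  rw [h0] at h1
  exact h1

/-- **Main theorem.** Let `K` be a compact subgroup of a topological group `G` (no separation axiom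
is assumed, and `K` need not be normal). If `G / K` is a Baire space, so is `G`. -/
theorem result : ∀ (G : Type u) [Group G] [TopologicalSpace G] [IsTopologicalGroup G]
    (K : Subgroup G), IsCompact (K : Set G) → BaireSpace (G ⧸ K) → BaireSpace G := by
  intro G _ _ _ K hK hB
  have h0 : ∀ y : G ⧸ K, IsCompact ((QuotientGroup.mk : G → G ⧸ K) ⁻¹' {y}) := ?_
  · exact baire_of_fibres (QuotientGroup.mk : G → G ⧸ K) QuotientGroup.continuous_mk
      QuotientGroup.isOpenMap_coe h0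
  intro y
  obtain ⟨g, rfl⟩ := QuotientGroup.mk_surjective y
  have h : (QuotientGroup.mk : G → G ⧸ K) ⁻¹' {(g : G ⧸ K)} = (fun x => g * x) '' (K : Set G) := by
    ext x
    rw [mem_preimage, mem_singleton_iff, eq_comm, QuotientGroup.eq]
    constructor
    · intro hx
      exact ⟨g⁻¹ * x, hx, by simp⟩
    · rintro ⟨k, hk, rfl⟩
      simpa using hk
  rw [h]
  exact hK.image (continuous_const_mul g)

end Pool.Agent.Results.MP_0c5bac_gt.CompactExtension
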